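import Pool.Agent.H6.SumLab

namespace Pool.Agent.Results.MP_520ea7_co.NoMinimal

/-- A sum labeling: injective, positive, and distinct `u, v` are adjacent iff the sum of their
labels is a label. -/
def IsSumLabeling {V : Type} (G : SimpleGraph V) (l : V → ℕ) : Prop :=
  Function.Injective l ∧ (∀ v, 0 < l v) ∧ ∀ u v, u ≠ v → (G.Adj u v ↔ ∃ w, l w = l u + l v)

theorem result : ∃ G : SimpleGraph (Fin 8), (∃ l, IsSumLabeling G l) ∧
    ∀ l, IsSumLabeling G l → ∀ u, l u ≠ 1 :=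
  ⟨Pool.Agent.H6.SumLab.G, ⟨Pool.Agent.H6.SumLab.lab, by decide, by decide, by decide⟩,
    fun l h u => Pool.Agent.H6.SumLab.no_one l h.1 h.2.1 h.2.2 u⟩

end Pool.Agent.Results.MP_520ea7_co.NoMinimal
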